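import Pool.Agent.H91.QW.FGDefs
import Pool.Agent.H57.ZP.ThreeDefs

/-!
# Étale motivic cohomology of arithmetic schemes, and matrices with prescribed zeros: definitions
-/

set_option autoImplicit false

open CategoryTheory AlgebraicGeometry Pool.Agent.Y116.UV Pool.Agent.H91.QW Pool.Agent.H57.ZP

namespace Pool.Agent.H57.EM

/-- Finite generation for the arithmetic scheme `X` reduces to finitely many schemes of the family `F`:
there are finitely many schemes `Y` in `F` and a number `b` such that for all étale motivic cohomologies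
`H` and all `a`, if all groups `H^i(Y_et, ℤ^c(n))`, `n < - a`, of these schemes `Y` are finitely generated,
then all groups `H^i(X_et, ℤ^c(n))`, `n < - (a + b)`, are finitely generated. -/
def ReducesTo (F : Set (Sch ℤ)) (X : Sch ℤ) : Prop :=
  ∃ (b : ℕ) (L : Set (Sch ℤ)), L.Finite ∧ L ⊆ F ∧
    ∀ H : ℤ → ℤ → Sch ℤ → ModuleCat.{0} ℤ, IsEtaleMotivic H →
      ∀ a : ℕ, (∀ Y ∈ L, FGBelow H a Y) → FGBelow H (a + b) X

/-- The schemes over `ℤ` of the invertible matrices with zeros at the places in `Z`, with at most three
other places in each row and each column. -/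
def invertibleMatrices : Set (Sch ℤ) :=
  {Y | ∃ (n : ℕ) (Z : Finset (Fin n × Fin n)), ThreeZ Z ∧ Y = glS ℤ Z}

/-- The schemes over `ℤ` of the matrices of rank at most three with zeros at the places in `Z`. -/
def rankMatrices : Set (Sch ℤ) :=
  {Y | ∃ (m n : ℕ) (Z : Finset (Fin m × Fin n)), Y = rkS ℤ Z}

end Pool.Agent.H57.EM
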