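import Pool.Agent.H57.EM.Defs
import Pool.Agent.H91.QW.FG
import Pool.Agent.H57.ZP.Three

/-!
# Étale motivic cohomology of arithmetic schemes, and matrices with prescribed zeros
-/

set_option autoImplicit false

open CategoryTheory AlgebraicGeometry MvPolynomial Pool.Agent.Y116.UV Pool.Agent.Z125.UN
  Pool.Agent.H91.QW Pool.Agent.H57.ZP

namespace Pool.Agent.H57.EM

section fg

variable {H : ℤ → ℤ → Sch ℤ → ModuleCat.{0} ℤ} (hH : IsEtaleMotivic H)

lemma fg_mono {a b : ℕ} (hab : a ≤ b) {X : Sch ℤ} (h : FGBelow H a X) : FGBelow H b X :=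
  fun n hn i => h n (by omega) i

include hH

lemma fg_isoX {a : ℕ} {X Y : Sch ℤ} (hX : FT True X) (e : Nonempty (X ≅ Y))
    (h : FGBelow H a X) : FGBelow H a Y := fun n hn i => by
  obtain ⟨e'⟩ := (hH.localization n (by omega)).iso hX e i
  exact fg_iso e' (h n hn i)

lemma fg_total {a : ℕ} {Z X U : Sch ℤ} (i : Z ⟶ X) (j : U ⟶ X) (hX : FT True X)
    (ht : IsTriple i j) (hZ : FGBelow H a Z) (hU : FGBelow H a U) : FGBelow H a X := by
  intro n hn l
  obtain ⟨f, g, h, h1, h2, h3⟩ := (hH.localization n (by omega)).les i j hX ht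
  exact fg_mid (f l) (g l) (h1 l) (hZ n hn l) (hU n hn l)

lemma fg_opened {a : ℕ} {Z X U : Sch ℤ} (i : Z ⟶ X) (j : U ⟶ X) (hX : FT True X)
    (ht : IsTriple i j) (hZ : FGBelow H a Z) (hX' : FGBelow H a X) : FGBelow H a U := by
  intro n hn l
  obtain ⟨f, g, h, h1, h2, h3⟩ := (hH.localization n (by omega)).les i j hX ht
  exact fg_mid (g l) (h l) (h2 l) (hX' n hn l) (hZ n hn (l + 1))

lemma fg_closed {a : ℕ} {Z X U : Sch ℤ} (i : Z ⟶ X) (j : U ⟶ X) (hX : FT True X)
    (ht : IsTriple i j) (hX' : FGBelow H a X) (hU : FGBelow H a U) : FGBelow H a Z := by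
  intro n hn l
  obtain ⟨f, g, h, h1, h2, h3⟩ := (hH.localization n (by omega)).les i j hX ht
  have h4 := fg_mid (h (l - 1)) (f (l - 1 + 1)) (h3 (l - 1)) (hU n hn (l - 1))
    (hX' n hn (l - 1 + 1))
  rwa [sub_add_cancel] at h4

lemma fg_bundle {a : ℕ} (A : Type) [CommRing A] [Algebra.FiniteType ℤ A] (m : ℕ)
    (f : Fin (m + 1) → A) (U : Sch ℤ) (hU : IsCompl f U) (h : FGBelow H a U) :
    FGBelow H a (jouZ f) := by
  intro n hn l
  obtain ⟨e⟩ := (hH.bundles n (by omega)).bundle l A m f U hU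
  exact fg_iso e.symm (h (n - m) (by omega) (l + 2 * m))

lemma fg_base {a : ℕ} (A : Type) [CommRing A] [Algebra.FiniteType ℤ A] (m : ℕ)
    (f : Fin (m + 1) → A) (U : Sch ℤ) (hU : IsCompl f U) (h : FGBelow H a (jouZ f)) :
    FGBelow H (a + m) U := by
  intro n hn l
  have hn' : n + m < -(a : ℤ) := by push_cast at hn; omega
  obtain ⟨e⟩ := (hH.bundles (n + m) (by omega)).bundle (l - 2 * m) A m f U hU
  have h1 := fg_iso e (h (n + m) hn' (l - 2 * m))
  rwa [add_sub_cancel_right, sub_add_cancel] at h1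

lemma fg_torus {a : ℕ} (A : Type) [CommRing A] [Algebra.FiniteType ℤ A]
    (h : FGBelow H a (torZ A)) : FGBelow H a (aff ℤ A) := by
  intro n hn l
  obtain ⟨s, r, hs⟩ := hH.torus n (by omega) l A
  refine fg_inj s ?_ (h n hn (l - 1))
  refine Function.LeftInverse.injective (g := r.hom) fun x => (hs x).trans ?_
  exact one_smul ℤ x

lemma fg_line {a : ℕ} (A : Type) [CommRing A] [Algebra.FiniteType ℤ A]
    (h : FGBelow H a (aff ℤ A)) : FGBelow H a (lineZ A) := by
  intro n hn l
  obtain ⟨e⟩ := (hH.bundles n (by omega)).line l A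
  exact fg_iso e.symm (h (n - 1) (by omega) (l + 2))

lemma fg_line' {a : ℕ} (A : Type) [CommRing A] [i : Algebra ℤ A] (hA : Algebra.FiniteType ℤ A)
    (j : Algebra ℤ (Polynomial A)) (h : FGBelow H a (aff ℤ A)) :
    FGBelow H a (@aff ℤ (Polynomial A) _ _ j) := by
  obtain rfl : i = Ring.toIntAlgebra A := Subsingleton.elim _ _
  exact conv _ _ (fg_line hH A h)

lemma fg_space (r : ℕ) : FGBelow H 0 (aff ℤ (MvPolynomial (Fin r) ℤ)) := by
  induction r with
  | zero =>
    have h1 : FGBelow H 0 (aff ℤ ℤ) := by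
      refine fgDim_one hH _ (ft_aff True) ?_
      rw [show topologicalKrullDim (aff ℤ ℤ).left = ringKrullDim ℤ from
        PrimeSpectrum.topologicalKrullDim_eq_ringKrullDim ℤ]
      exact_mod_cast Ring.krullDimLE_iff.mp inferInstance
    exact fg_isoX hH (ft_aff True) ⟨affIso (MvPolynomial.isEmptyAlgEquiv ℤ (Fin 0))⟩ h1
  | succ r ih =>
    have h1 := fg_line' hH (MvPolynomial (Fin r) ℤ) inferInstance inferInstance ih
    exact fg_isoX hH (ft_aff True) ⟨affIso (MvPolynomial.finSuccEquiv ℤ r)⟩ h1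

end fg

variable {F : Set (Sch ℤ)}

lemma reduces_mem {X : Sch ℤ} (hX : X ∈ F) : ReducesTo F X :=
  ⟨0, {X}, Set.finite_singleton X, Set.singleton_subset_iff.mpr hX,
    fun _ _ _ h => h X (Set.mem_singleton X)⟩

lemma reduces_two {X Y W : Sch ℤ}
    (h : ∀ H : ℤ → ℤ → Sch ℤ → ModuleCat.{0} ℤ, IsEtaleMotivic H → ∀ a : ℕ,
      FGBelow H a X → FGBelow H a Y → FGBelow H a W)
    (hX : ReducesTo F X) (hY : ReducesTo F Y) : ReducesTo F W := by
  obtain ⟨b, L, h1, h2, h3⟩ := hX
  obtain ⟨b', L', h1', h2', h3'⟩ := hY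
  refine ⟨max b b', L ∪ L', h1.union h1', Set.union_subset h2 h2', fun H hH a hL => ?_⟩
  refine h H hH (a + max b b') ?_ ?_
  · exact fg_mono (by omega) (h3 H hH a fun Y hY => hL Y (Or.inl hY))
  · exact fg_mono (by omega) (h3' H hH a fun Y hY => hL Y (Or.inr hY))

lemma reduces_one (c : ℕ) {X W : Sch ℤ}
    (h : ∀ H : ℤ → ℤ → Sch ℤ → ModuleCat.{0} ℤ, IsEtaleMotivic H → ∀ a : ℕ,
      FGBelow H a X → FGBelow H (a + c) W)
    (hX : ReducesTo F X) : ReducesTo F W := by
  obtain ⟨b, L, h1, h2, h3⟩ := hX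
  refine ⟨b + c, L, h1, h2, fun H hH a hL => ?_⟩
  rw [← add_assoc]
  exact h H hH (a + b) (h3 H hH a hL)

lemma reduces_space (r : ℕ) : ReducesTo F (aff ℤ (MvPolynomial (Fin r) ℤ)) :=
  ⟨0, ∅, Set.finite_empty, Set.empty_subset F, fun _ hH _ _ =>
    fg_mono (Nat.zero_le _) (fg_space hH r)⟩

lemma reduces_conv {A : Type} [CommRing A] (i1 i2 : Algebra ℤ A)
    (h : ReducesTo F (@aff ℤ A _ _ i1)) : ReducesTo F (@aff ℤ A _ _ i2) := by
  rwa [Subsingleton.elim i2 i1]

/-- the empty scheme -/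
lemma reduces_empty {U : Sch ℤ} (hU : IsEmpty U.left) : ReducesTo F U := by
  have h0 : ReducesTo F (aff ℤ ℤ) := by
    have h1 : ReducesTo F (aff ℤ (MvPolynomial (Fin 0) ℤ)) := reduces_space 0
    refine reduces_one 0 (fun H hH a h => ?_) h1
    exact fg_isoX hH (ft_aff True) ⟨affIso (MvPolynomial.isEmptyAlgEquiv ℤ (Fin 0)).symm⟩ h
  let j : U ⟶ aff ℤ ℤ := Over.homMk U.hom (by
    change U.hom ≫ Spec.map (CommRingCat.ofHom (algebraMap ℤ ℤ)) = U.hom
    rw [Algebra.algebraMap_self]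
    exact (congrArg _ (Spec.map_id _)).trans (Category.comp_id _))
  have hj : IsOpenImmersion j.left := inferInstance
  refine reduces_one 0 (fun H hH a h => ?_) h0
  refine fg_opened hH (𝟙 (aff ℤ ℤ)) j (ft_aff True) ⟨?_, hj, ?_⟩ h h
  · change IsClosedImmersion (𝟙 (aff ℤ ℤ).left)
    infer_instance
  · have h2 : Set.range j.left = ∅ := Set.range_eq_empty_iff.mpr hU
    rw [h2, Set.compl_empty]
    exact Set.range_eq_univ.mpr fun x => ⟨x, rfl⟩

/-- the complement of nothing -/
lemma isEmpty_of_range {A : Type} [CommRing A] [Algebra ℤ A] (f : Fin 0 → A) {U : Sch ℤ}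
    (j : U ⟶ aff ℤ A)
    (h : Set.range j.left = {x : PrimeSpectrum A | ∃ l, f l ∉ x.asIdeal}) : IsEmpty U.left := by
  refine ⟨fun x => ?_⟩
  have h1 : j.left x ∈ Set.range j.left := ⟨x, rfl⟩
  rw [h] at h1
  exact h1.choose.elim0

lemma isEmpty_jou {A : Type} [CommRing A] [Algebra ℤ A] (f : Fin 0 → A) (i : Algebra ℤ (Jou f)) :
    IsEmpty (@aff ℤ (Jou f) _ _ i).left := by
  have h1 : Subsingleton (Jou f) := by
    rw [Ideal.Quotient.subsingleton_iff, Ideal.span_singleton_eq_top]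
    simp
  change IsEmpty (PrimeSpectrum (Jou f))
  infer_instance

/-- the property is closed under all operations -/
theorem bnd_reduces (F : Set (Sch ℤ)) : Bnd True (ReducesTo F) where
  iso hX e := reduces_one 0 fun H hH a => fg_isoX hH hX e
  total i j hX ht := reduces_two fun H hH a => fg_total hH i j hX ht
  opened i j hX ht := reduces_two fun H hH a => fg_opened hH i j hX ht
  closed i j hX ht := reduces_two fun H hH a => fg_closed hH i j hX ht
  space := reduces_space
  jouanolou A _ i hA m f U j hj hr h := by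
    obtain rfl : i = Ring.toIntAlgebra A := Subsingleton.elim _ _
    cases m with
    | zero => exact reduces_empty (isEmpty_of_range f j hr)
    | succ m =>
      exact reduces_one m (fun H hH a => fg_base hH A m f U ⟨j, hj, hr⟩) (reduces_conv _ _ h)
  torus A _ i hA h := by
    obtain rfl : i = Ring.toIntAlgebra A := Subsingleton.elim _ _
    exact reduces_one 0 (fun H hH a => fg_torus hH A) (reduces_conv _ _ h)
  bundle A _ i hA m f U j hj hr h := by
    obtain rfl : i = Ring.toIntAlgebra A := Subsingleton.elim _ _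
    cases m with
    | zero => exact reduces_empty (isEmpty_jou f _)
    | succ m =>
      exact reduces_conv _ _ (reduces_one 0 (fun H hH a => fg_bundle hH A m f U ⟨j, hj, hr⟩) h)

lemma frac_int : Pool.Agent.Q193.LT.Frac ℤ :=
  Pool.Agent.Q193.LT.frac_of_surj fun x => ⟨x, rfl⟩

/-- **Reduction to the invertible matrices with prescribed zeros.** -/
theorem reduces_gl (X : Sch ℤ) (hX : FT True X) : ReducesTo invertibleMatrices X :=
  universal_gl3 (P := ReducesTo invertibleMatrices) frac_int (bnd_reduces _)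
    (fun n Z hZ => reduces_mem (F := invertibleMatrices) ⟨n, Z, hZ, rfl⟩) X hX

/-- **Reduction to the matrices of rank at most three with prescribed zeros.** -/
theorem reduces_rk (X : Sch ℤ) (hX : FT True X) : ReducesTo rankMatrices X :=
  universal_rk (P := ReducesTo rankMatrices) frac_int (bnd_reduces _)
    (fun m n Z => reduces_mem (F := rankMatrices) ⟨m, n, Z, rfl⟩) X hX

end Pool.Agent.H57.EM
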